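import Pool.Agent.Lib.H34S.HexAll
import Pool.Agent.Lib.H65H.HexH

/-!
# Sums of three hexagonal numbers of positive rank (MP_6613fe_nt, Q2, partial result)

If `8 n + 3` is divisible by the square of one of the integers `21, 27, 33, 35, 37, 39, 43, 45, 47, 51, 53, 55, 57,
59`, of an integer `k` with `67 ≤ k < 1000`, `k ≠ 157`, or of an integer `k ≥ 2 · 10 ^ 8`, then `n` is a sum of three
hexagonal numbers of positive rank, without exception.

Proof: let `8 n + 3 = k² m`. By the three squares theorem `m = |v|²` with `v ∈ ℤ³`, all coordinates congruent to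
`3` modulo `4` (of any sign). If `A` is an integral matrix with `Aᵗ A = k²` and all row sums congruent to `1` modulo
`4`, then `A v` has norm `8 n + 3` and coordinates congruent to `3` modulo `4`, so it is enough that `A v ≥ 0` for
one of these `A`. For `k < 1000` the octants `A v ≥ 0` cover the space; this is checked by a decision tree for every
`k` (`Pool/Agent/Lib/H34S`). For large `k` the matrices are rotations of quaternions of norm `k` close to a multiple
of a quaternion of norm `3`, which are found by the three squares theorem (`Pool/Agent/Lib/H65H`).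
-/

set_option autoImplicit false

namespace Pool.Agent.Results.MP_6613fe_nt.HexagonalSquareDivisor

/-- If `k` is one of the listed integers and `k²` divides `8 n + 3`, then `n` is a sum of three hexagonal numbers
`r (2 r - 1)` of positive rank `r`. -/
theorem result : ∀ k n : ℕ, (k ∈ [21, 27, 33, 35, 37, 39, 43, 45, 47, 51, 53, 55, 57, 59] ∨
    (67 ≤ k ∧ k < 1000 ∧ k ≠ 157) ∨ 200000000 ≤ k) → k ^ 2 ∣ 8 * n + 3 →
      ∃ a b c : ℕ, 1 ≤ a ∧ 1 ≤ b ∧ 1 ≤ c ∧ n = a * (2 * a - 1) + b * (2 * b - 1) + c * (2 * c - 1) := by
  intro k n hk hn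
  have h2 : k % 2 = 1 := by
    rcases Nat.mod_two_eq_zero_or_one k with h | h
    · exfalso
      obtain ⟨m, hm⟩ := hn
      obtain ⟨l, hl⟩ : ∃ l, k = 2 * l := ⟨k / 2, by omega⟩
      rw [hl, show (2 * l) ^ 2 * m = 4 * (l ^ 2 * m) by ring] at hm
      omega
    · exact h
  rcases hk with hk | hk | hk
  · exact H34S.hex_of_good (H34S.hex_all h2 (Or.inl hk) n hn)
  · exact H34S.hex_of_good (H34S.hex_all h2 (Or.inr hk) n hn)
  · exact H34S.hex_of_good (H65K.hexOK_large k hk n hn)

end Pool.Agent.Results.MP_6613fe_nt.HexagonalSquareDivisor
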