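import Pool.Agent.Lib.H34S.PentAll
import Pool.Agent.Lib.H34S.PentLarge

/-!
# Sums of three pentagonal numbers of positive rank (MP_6613fe_nt, Q1, partial result)

If `24 n + 3` is divisible by the square of one of the following integers `k`, then `n` is a sum of three pentagonal
numbers of positive rank, without exception: `11, 23, 25, 33, 41, 43, 45, 49, 55, 59, 61, 63, 65`; all `k` with
`69 ≤ k < 1000` except `81, 111, 117, 167`; all `k ≥ 4 * 10 ^ 8` not divisible by `3`; all `k ≥ 3.24 * 10 ^ 10`. For
`n ≡ 2 (mod 3)` also all `k` with `11 ≤ k < 1000`, `k ≠ 13`.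

Proof: let `24 n + 3 = k² m`. By the three squares theorem `m = |v|²` with `v ∈ ℤ³`, and if `3` does not divide `k`
all coordinates may be taken congruent to `5` modulo `6` (of any sign). If `A` is an integral matrix with `Aᵗ A = k²`
and all row sums congruent to `1` modulo `6`, then `A v` has norm `24 n + 3` and coordinates congruent to `5` modulo
`6`, so it is enough that `A v ≥ 0` for one of these `A`.

For `k < 1000` the octants `A v ≥ 0` cover the space; this is checked by decision trees. (For some `k` further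
matrices are used: the reflection `v ↦ v - (2/3) (v₁ + v₂ + v₃) (1, 1, 1)` if `9` does not divide `24 n + 3`, and
matrices with `Aᵗ A = (3k)²` if `9` divides `m`.) For large `k` the matrices are the rotations of quaternions of norm
`k` and (halves of) `2 k` close to a multiple of `n = i + j + k`, `i n`, `2 - j` or `1 + 2 j`, which are found by the
three squares theorem; see `Pool/Agent/Lib/H34S`.
-/

set_option autoImplicit false

namespace Pool.Agent.Results.MP_6613fe_nt.PentagonalSquareDivisor

/-- If `k` is one of the listed integers and `k²` divides `24 n + 3`, then `n` is a sum of three pentagonal numbers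
`r (3 r - 1) / 2` of positive rank `r`. -/
theorem result : ∀ k n : ℕ,
    (k ∈ [11, 23, 25, 33, 41, 43, 45, 49, 55, 59, 61, 63, 65] ∨
      (69 ≤ k ∧ k < 1000 ∧ k ∉ [81, 111, 117, 167]) ∨
      (400000000 ≤ k ∧ ¬ 3 ∣ k) ∨ 32400000000 ≤ k ∨
      (n % 3 = 2 ∧ 11 ≤ k ∧ k < 1000 ∧ k ≠ 13)) →
    k ^ 2 ∣ 24 * n + 3 → ∃ a b c : ℕ, 1 ≤ a ∧ 1 ≤ b ∧ 1 ≤ c ∧
      2 * n = a * (3 * a - 1) + b * (3 * b - 1) + c * (3 * c - 1) := by
  intro k n hk hn
  have h2 : k % 2 = 1 := by
    rcases Nat.mod_two_eq_zero_or_one k with h | h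
    · exfalso
      obtain ⟨m, hm⟩ := hn
      obtain ⟨l, hl⟩ : ∃ l, k = 2 * l := ⟨k / 2, by omega⟩
      rw [hl, show (2 * l) ^ 2 * m = 4 * (l ^ 2 * m) by ring] at hm
      omega
    · exact h
  rcases hk with hk | hk | ⟨h3, h4⟩ | hk | ⟨h3, h4, h5, h6⟩
  · exact H34S.pent_of_good (H34S.pent_all h2 (Or.inl hk) n hn)
  · exact H34S.pent_of_good (H34S.pent_all h2 (Or.inr hk) n hn)
  · exact H34S.pent_of_good (H34S.pent_large_coprime (by omega) h3 n hn)
  · exact H34S.pent_of_good (H34S.pent_large
      (H34S.pent_all (by norm_num) (Or.inr ⟨by norm_num, by norm_num, by decide⟩)) hk n hn)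
  · exact H34S.pent_of_good (H34S.two_all h2 h4 h5 h6 n h3 hn)

end Pool.Agent.Results.MP_6613fe_nt.PentagonalSquareDivisor
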